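import Pool.Agent.Q54.GG.Upper

set_option autoImplicit false

/-! # The second neighbourhood of a vertex: Cauchy-Schwarz -/

namespace Pool.Agent.Q54.GG

open Finset
open Pool.Agent.H373R2.T7 (pz mem_pz)

lemma not_Q {w x z y : ℕ} (hx : w + y < x) (hz : w + y < z) (h1 : (x + y).Prime) (h2 : (x - y).Prime)
    (h3 : (z + y).Prime) (h4 : (z - y).Prime) : ∀ p ∈ pz w, ¬ Q x z p y := by
  intro p hp hQ
  obtain ⟨hpw, hp'⟩ := mem_pz.1 hp
  have key : ∀ q : ℕ, q.Prime → w < q → ¬ p ∣ q := by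
    intro q hq hwq hpq
    rcases (Nat.dvd_prime hq).1 hpq with h | h
    · exact hp'.one_lt.ne' h
    · omega
  unfold Q at hQ
  rcases hQ with h | h | h | h
  · have e : (x : ℤ) + y = ((x + y : ℕ) : ℤ) := by push_cast; ring
    rw [e, Int.natCast_dvd_natCast] at h
    exact key _ h1 (by omega) h
  · have e : (x : ℤ) - y = ((x - y : ℕ) : ℤ) := by rw [Nat.cast_sub (by omega)]
    rw [e, Int.natCast_dvd_natCast] at h
    exact key _ h2 (by omega) h
  · have e : (z : ℤ) + y = ((z + y : ℕ) : ℤ) := by push_cast; ring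
    rw [e, Int.natCast_dvd_natCast] at h
    exact key _ h3 (by omega) h
  · have e : (z : ℤ) - y = ((z - y : ℕ) : ℤ) := by rw [Nat.cast_sub (by omega)]
    rw [e, Int.natCast_dvd_natCast] at h
    exact key _ h4 (by omega) h

theorem expand : ∃ (K : ℕ) (C : ℝ) (w₀ : ℕ), 1 ≤ K ∧ 0 < C ∧ 3 ≤ w₀ ∧ ∀ w : ℕ, w₀ ≤ w → ∀ n x Y : ℕ, x ≤ n →
    w + Y < x → ∀ X : Finset ℕ, X ⊆ Icc 1 Y → (∀ y ∈ X, (x + y).Prime ∧ (x - y).Prime) →
    ∀ Z : ℕ → Finset ℕ, (∀ y ∈ X, Z y ⊆ Icc 1 n ∧ ∀ z ∈ Z y, w + y < z ∧ (z + y).Prime ∧ (z - y).Prime) →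
    ∀ M : ℝ, 0 ≤ M → (∀ y ∈ X, M ≤ (Z y).card) →
    (X.card * M) ^ 2 ≤ (X.biUnion Z).card *
      (Y ^ 2 + (C * Y / Real.log w ^ 4) ^ 2 * D x ^ 2 * n + 2 * (n * (w : ℝ) ^ K)) := by
  classical
  obtain ⟨K, C, w₀, hK, hC, hw₀, hfour⟩ := four_le
  refine ⟨K, C * Real.sqrt (4 * Real.exp 290), w₀, hK, by positivity, hw₀,
    fun w hw n x Y hxn hwx X hXY hX Z hZ M hM hMZ => ?_⟩
  obtain ⟨A, hA⟩ : ∃ A : ℝ, A = C * Y / Real.log w ^ 4 := ⟨_, rfl⟩
  obtain ⟨B, hB⟩ : ∃ B : ℝ, B = √((w ^ K : ℕ) : ℝ) := ⟨_, rfl⟩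
  obtain ⟨T, hT⟩ : ∃ T : ℕ → ℝ, T = fun z => ((X.filter (fun y => z ∈ Z y)).card : ℝ) := ⟨_, rfl⟩
  have hT0 : ∀ z, 0 ≤ T z := fun z => by rw [hT]; exact Nat.cast_nonneg _
  have hA0 : 0 ≤ A := by
    rw [hA]
    have : (0 : ℝ) ≤ Real.log w ^ 4 := by positivity
    positivity
  have hB0 : 0 ≤ B := by rw [hB]; positivity
  have hB2 : B ^ 2 = (w : ℝ) ^ K := by
    rw [hB, Real.sq_sqrt (Nat.cast_nonneg _)]; push_cast; rfl
  -- the first moment
  have hU : X.biUnion Z ⊆ Icc 1 n := by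
    intro z hz
    rw [mem_biUnion] at hz
    obtain ⟨y, hy, hz⟩ := hz
    exact (hZ y hy).1 hz
  have hfirst : X.card * M ≤ ∑ z ∈ X.biUnion Z, T z := by
    have e : ∑ z ∈ X.biUnion Z, T z = ∑ y ∈ X, ((Z y).card : ℝ) := by
      rw [hT]
      have e1 : ∀ z : ℕ, ((X.filter (fun y => z ∈ Z y)).card : ℝ) = ∑ y ∈ X, if z ∈ Z y then (1 : ℝ) else 0 := by
        intro z
        rw [card_filter]; push_cast; rfl
      simp only [e1]
      rw [sum_comm]
      apply sum_congr rfl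
      intro y hy
      rw [← sum_filter, sum_const, nsmul_eq_mul, mul_one]
      congr 2
      ext z
      rw [mem_filter, mem_biUnion]
      exact ⟨fun h => h.2, fun h => ⟨⟨y, hy, h⟩, h⟩⟩
    rw [e, ← nsmul_eq_mul]
    exact card_nsmul_le_sum _ _ _ hMZ
  -- pointwise bounds
  have hpt : ∀ z ∈ X.biUnion Z, z ≠ x → T z ≤ A * FF x z + B := by
    intro z hz hzx
    have hz1 := (mem_Icc.1 (hU hz)).1
    have h1 := hfour w hw x z (by omega) hz1 (Ne.symm hzx) Y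
    rw [← hA, ← hB] at h1
    refine le_trans ?_ h1
    rw [hT]
    simp only
    norm_cast
    apply card_le_card
    intro y hy
    rw [mem_filter] at hy
    rw [mem_filter]
    have h2 := mem_Icc.1 (hXY hy.1)
    have h3 := hX y hy.1
    have h4 := (hZ y hy.1).2 z hy.2
    exact ⟨hXY hy.1, not_Q (by omega) (by omega) h3.1 h3.2 h4.2.1 h4.2.2⟩
  have hpx : T x ≤ Y := by
    rw [hT]
    simp only
    have h1 : (X.filter (fun y => x ∈ Z y)).card ≤ Y := by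
      refine (card_filter_le _ _).trans ((card_le_card hXY).trans ?_)
      rw [Nat.card_Icc]; omega
    exact_mod_cast h1
  -- the second moment
  have hsecond : ∑ z ∈ X.biUnion Z, T z ^ 2 ≤ (Y : ℝ) ^ 2 + 2 * A ^ 2 * (D x ^ 2 * (2 * Real.exp 290 * n)) +
      2 * (n * (w : ℝ) ^ K) := by
    have h1 : ∑ z ∈ X.biUnion Z, T z ^ 2 ≤ (Y : ℝ) ^ 2 +
        ∑ z ∈ (X.biUnion Z).filter (fun z => z ≠ x), T z ^ 2 := by
      rw [← sum_filter_add_sum_filter_not (X.biUnion Z) (fun z => z = x)]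
      apply add_le_add _ le_rfl
      have hsub : (X.biUnion Z).filter (fun z => z = x) ⊆ {x} := by
        intro z hz
        rw [mem_filter] at hz
        rw [mem_singleton]; exact hz.2
      refine (sum_le_sum_of_subset_of_nonneg hsub fun _ _ _ => by positivity).trans ?_
      rw [sum_singleton]
      exact pow_le_pow_left₀ (hT0 x) hpx 2
    have h2 : ∑ z ∈ (X.biUnion Z).filter (fun z => z ≠ x), T z ^ 2 ≤
        ∑ z ∈ (Icc 1 n).filter (fun z => z ≠ x), (2 * A ^ 2 * FF x z ^ 2 + 2 * B ^ 2) := by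
      have h3 : ∑ z ∈ (X.biUnion Z).filter (fun z => z ≠ x), T z ^ 2 ≤
          ∑ z ∈ (X.biUnion Z).filter (fun z => z ≠ x), (2 * A ^ 2 * FF x z ^ 2 + 2 * B ^ 2) := by
        apply sum_le_sum
        intro z hz
        rw [mem_filter] at hz
        have h4 := hpt z hz.1 hz.2
        have h5 : T z ^ 2 ≤ (A * FF x z + B) ^ 2 := pow_le_pow_left₀ (hT0 z) h4 2
        nlinarith [sq_nonneg (A * FF x z - B)]
      refine h3.trans (sum_le_sum_of_subset_of_nonneg (filter_subset_filter _ hU) fun _ _ _ => by positivity)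
    have h6 : ∑ z ∈ (Icc 1 n).filter (fun z => z ≠ x), (2 * A ^ 2 * FF x z ^ 2 + 2 * B ^ 2) ≤
        2 * A ^ 2 * (D x ^ 2 * (2 * Real.exp 290 * n)) + 2 * (n * (w : ℝ) ^ K) := by
      rw [sum_add_distrib, ← mul_sum, sum_const, nsmul_eq_mul]
      have h7 := FF_moment x n (by omega) hxn
      have h8 : (((Icc 1 n).filter (fun z => z ≠ x)).card : ℝ) ≤ n := by
        have : ((Icc 1 n).filter (fun z => z ≠ x)).card ≤ n := by
          refine (card_filter_le _ _).trans ?_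
          rw [Nat.card_Icc]; omega
        exact_mod_cast this
      have h9 : 2 * A ^ 2 * ∑ z ∈ (Icc 1 n).filter (fun z => z ≠ x), FF x z ^ 2 ≤
          2 * A ^ 2 * (D x ^ 2 * (2 * Real.exp 290 * n)) := mul_le_mul_of_nonneg_left h7 (by positivity)
      have h10 : (((Icc 1 n).filter (fun z => z ≠ x)).card : ℝ) * (2 * B ^ 2) ≤ n * (2 * B ^ 2) :=
        mul_le_mul_of_nonneg_right h8 (by positivity)
      rw [hB2] at h10 ⊢
      linarith
    linarith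
  have hcs : (∑ z ∈ X.biUnion Z, T z) ^ 2 ≤ (X.biUnion Z).card * ∑ z ∈ X.biUnion Z, T z ^ 2 :=
    sq_sum_le_card_mul_sum_sq
  have hsq : Real.sqrt (4 * Real.exp 290) ^ 2 = 4 * Real.exp 290 := Real.sq_sqrt (by positivity)
  calc (X.card * M) ^ 2 ≤ (∑ z ∈ X.biUnion Z, T z) ^ 2 := pow_le_pow_left₀ (by positivity) hfirst 2
    _ ≤ (X.biUnion Z).card * ∑ z ∈ X.biUnion Z, T z ^ 2 := hcs
    _ ≤ (X.biUnion Z).card * ((Y : ℝ) ^ 2 + 2 * A ^ 2 * (D x ^ 2 * (2 * Real.exp 290 * n)) +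
      2 * (n * (w : ℝ) ^ K)) := mul_le_mul_of_nonneg_left hsecond (Nat.cast_nonneg _)
    _ = _ := by
      have e : (C * Real.sqrt (4 * Real.exp 290) * Y / Real.log w ^ 4) ^ 2 = A ^ 2 * (4 * Real.exp 290) := by
        calc (C * Real.sqrt (4 * Real.exp 290) * Y / Real.log w ^ 4) ^ 2
            = (C * Y / Real.log w ^ 4) ^ 2 * Real.sqrt (4 * Real.exp 290) ^ 2 := by ring
          _ = _ := by rw [hsq, hA]
      rw [e]
      ring

end Pool.Agent.Q54.GG
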