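import Pool.Agent.H373R2.T7.Fund
import Pool.Agent.Helper256.KM.Mertens
import Pool.Agent.TH685.TI.Mom

set_option autoImplicit false

/-! # Upper bound for the number of `y ≤ Y` for which `x ± y` and `z ± y` have no small prime factors -/

namespace Pool.Agent.Q54.GG

open Finset
open Pool.Agent.H373R2.T7 (pz mem_pz nuB PerB sys_fund)

/-- `exp (∑ 1 / p)` over the odd prime factors of `h` -/
noncomputable def D (h : ℕ) : ℝ := Real.exp (∑ p ∈ h.primeFactors.filter (fun p => 2 < p), 1 / (p : ℝ))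

lemma one_le_D (h : ℕ) : 1 ≤ D h := by
  unfold D
  apply Real.one_le_exp
  exact sum_nonneg fun p _ => by positivity

/-- the condition modulo `p` -/
def Q (x z p y : ℕ) : Prop :=
  (p : ℤ) ∣ (x : ℤ) + y ∨ (p : ℤ) ∣ (x : ℤ) - y ∨ (p : ℤ) ∣ (z : ℤ) + y ∨ (p : ℤ) ∣ (z : ℤ) - y

lemma Q_iff (x z p y : ℕ) : Q x z p y ↔ ((y : ZMod p) = -(x : ZMod p) ∨
    (y : ZMod p) = x ∨ (y : ZMod p) = -(z : ZMod p) ∨ (y : ZMod p) = z) := by
  unfold Q
  have e : ∀ a : ℤ, (p : ℤ) ∣ a ↔ ((a : ℤ) : ZMod p) = 0 := fun a => (ZMod.intCast_zmod_eq_zero_iff_dvd a p).symm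
  rw [e, e, e, e]
  push_cast
  constructor
  · rintro (h | h | h | h)
    · exact Or.inl (by linear_combination h)
    · exact Or.inr (Or.inl (by linear_combination -h))
    · exact Or.inr (Or.inr (Or.inl (by linear_combination h)))
    · exact Or.inr (Or.inr (Or.inr (by linear_combination -h)))
  · rintro (h | h | h | h)
    · exact Or.inl (by linear_combination h)
    · exact Or.inr (Or.inl (by linear_combination -h))
    · exact Or.inr (Or.inr (Or.inl (by linear_combination h)))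
    · exact Or.inr (Or.inr (Or.inr (by linear_combination -h)))

open Classical in
lemma nu_eq (x z p : ℕ) (hp : p.Prime) :
    nuB (Q x z) p = ({-(x : ZMod p), (x : ZMod p), -(z : ZMod p), (z : ZMod p)} : Finset (ZMod p)).card := by
  have : NeZero p := ⟨hp.ne_zero⟩
  unfold nuB
  apply card_bij (fun (r : ℕ) _ => (r : ZMod p))
  · intro r hr
    rw [mem_filter] at hr
    have h := (Q_iff x z p r).1 hr.2
    simp only [mem_insert, mem_singleton]
    exact h
  · intro r hr s hs h
    rw [mem_filter, mem_range] at hr hs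
    have h2 := (ZMod.natCast_eq_natCast_iff' r s p).1 h
    rwa [Nat.mod_eq_of_lt hr.1, Nat.mod_eq_of_lt hs.1] at h2
  · intro a ha
    refine ⟨a.val, ?_, ZMod.natCast_zmod_val a⟩
    rw [mem_filter, mem_range]
    refine ⟨ZMod.val_lt a, (Q_iff x z p _).2 ?_⟩
    rw [ZMod.natCast_zmod_val]
    simpa only [mem_insert, mem_singleton] using ha

lemma perB (x z : ℕ) : PerB (Q x z) 4 := by
  classical
  refine ⟨fun p n => ?_, fun p hp => ?_⟩
  · have h : (p : ℤ) ∣ ((n : ℤ) - ((n % p : ℕ) : ℤ)) := by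
      rw [Int.natCast_mod]
      exact Int.dvd_self_sub_emod
    unfold Q
    have e1 : (p : ℤ) ∣ (x : ℤ) + n ↔ (p : ℤ) ∣ (x : ℤ) + ((n % p : ℕ) : ℤ) := by
      apply dvd_iff_dvd_of_dvd_sub
      have : (x : ℤ) + n - (x + ((n % p : ℕ) : ℤ)) = (n : ℤ) - ((n % p : ℕ) : ℤ) := by ring
      rwa [this]
    have e2 : (p : ℤ) ∣ (x : ℤ) - n ↔ (p : ℤ) ∣ (x : ℤ) - ((n % p : ℕ) : ℤ) := by
      apply dvd_iff_dvd_of_dvd_sub
      have : (x : ℤ) - n - (x - ((n % p : ℕ) : ℤ)) = -((n : ℤ) - ((n % p : ℕ) : ℤ)) := by ring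
      rw [this]; exact (dvd_neg).2 h
    have e3 : (p : ℤ) ∣ (z : ℤ) + n ↔ (p : ℤ) ∣ (z : ℤ) + ((n % p : ℕ) : ℤ) := by
      apply dvd_iff_dvd_of_dvd_sub
      have : (z : ℤ) + n - (z + ((n % p : ℕ) : ℤ)) = (n : ℤ) - ((n % p : ℕ) : ℤ) := by ring
      rwa [this]
    have e4 : (p : ℤ) ∣ (z : ℤ) - n ↔ (p : ℤ) ∣ (z : ℤ) - ((n % p : ℕ) : ℤ) := by
      apply dvd_iff_dvd_of_dvd_sub
      have : (z : ℤ) - n - (z - ((n % p : ℕ) : ℤ)) = -((n : ℤ) - ((n % p : ℕ) : ℤ)) := by ring
      rw [this]; exact (dvd_neg).2 h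
    rw [e1, e2, e3, e4]
  · rw [nu_eq x z p hp]
    exact card_le_four

/-- the indicator of `p ∣ h` -/
noncomputable def ind (p h : ℕ) : ℝ := if p ∣ h then 1 else 0

lemma ind_nonneg (p h : ℕ) : 0 ≤ ind p h := by unfold ind; split_ifs <;> norm_num

lemma nu_ge (x z p : ℕ) (hp : p.Prime) (h2 : 2 < p) (hzx : z ≤ x ∨ x ≤ z) :
    4 - ind p x - ind p z - 2 * ind p (Nat.dist x z) - 2 * ind p (x + z) ≤ (nuB (Q x z) p : ℝ) := by
  classical
  have : Fact p.Prime := ⟨hp⟩
  have hi := ind_nonneg p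
  have htwo : (2 : ZMod p) ≠ 0 := by
    intro h
    have h3 : ((2 : ℕ) : ZMod p) = 0 := by exact_mod_cast h
    rw [ZMod.natCast_eq_zero_iff] at h3
    exact absurd (Nat.le_of_dvd (by norm_num) h3) (by omega)
  have hx0 : (x : ZMod p) = 0 ↔ p ∣ x := ZMod.natCast_eq_zero_iff x p
  have hz0 : (z : ZMod p) = 0 ↔ p ∣ z := ZMod.natCast_eq_zero_iff z p
  have hs0 : (x : ZMod p) = -(z : ZMod p) ↔ p ∣ x + z := by
    rw [← ZMod.natCast_eq_zero_iff, Nat.cast_add]
    exact eq_neg_iff_add_eq_zero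
  have hd0 : (x : ZMod p) = (z : ZMod p) ↔ p ∣ Nat.dist x z := by
    rw [← ZMod.natCast_eq_zero_iff]
    rcases hzx with h | h
    · rw [Nat.dist_eq_sub_of_le_right h, Nat.cast_sub h, sub_eq_zero]
    · rw [Nat.dist_eq_sub_of_le h, Nat.cast_sub h, sub_eq_zero, eq_comm]
  have hneg : ∀ a : ZMod p, -a = a ↔ a = 0 := by
    intro a
    constructor
    · intro h
      have h3 : (2 : ZMod p) * a = 0 := by linear_combination -h
      rcases mul_eq_zero.1 h3 with h4 | h4
      · exact absurd h4 htwo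
      · exact h4
    · rintro rfl; simp
  rw [nu_eq x z p hp]
  obtain ⟨T, hT⟩ : ∃ T : Finset (ZMod p), T = {-(x : ZMod p), (x : ZMod p), -(z : ZMod p), (z : ZMod p)} :=
    ⟨_, rfl⟩
  rw [← hT]
  have hmx : (x : ZMod p) ∈ T := by rw [hT]; simp
  have hmx' : -(x : ZMod p) ∈ T := by rw [hT]; simp
  have hmz : (z : ZMod p) ∈ T := by rw [hT]; simp
  have hmz' : -(z : ZMod p) ∈ T := by rw [hT]; simp
  have hcardnn : (0 : ℝ) ≤ (T.card : ℝ) := Nat.cast_nonneg _
  have pair : ∀ a b : ZMod p, a ∈ T → b ∈ T → a ≠ b → (2 : ℝ) ≤ T.card := by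
    intro a b ha hb hab
    have h4 : ({a, b} : Finset (ZMod p)) ⊆ T := by
      intro c hc
      rw [mem_insert, mem_singleton] at hc
      rcases hc with rfl | rfl
      · exact ha
      · exact hb
    have h5 := card_le_card h4
    rw [card_pair hab] at h5
    exact_mod_cast h5
  have triple : ∀ a b c : ZMod p, a ∈ T → b ∈ T → c ∈ T → a ≠ b → a ≠ c → b ≠ c → (3 : ℝ) ≤ T.card := by
    intro a b c ha hb hc hab hac hbc
    have h4 : ({a, b, c} : Finset (ZMod p)) ⊆ T := by
      intro d hd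
      rw [mem_insert, mem_insert, mem_singleton] at hd
      rcases hd with rfl | rfl | rfl
      · exact ha
      · exact hb
      · exact hc
    have h5 := card_le_card h4
    rw [card_insert_of_notMem (by rw [mem_insert, mem_singleton, not_or]; exact ⟨hab, hac⟩), card_pair hbc] at h5
    exact_mod_cast h5
  by_cases hd : p ∣ Nat.dist x z ∨ p ∣ x + z
  · have h3 : 2 ≤ 2 * ind p (Nat.dist x z) + 2 * ind p (x + z) := by
      rcases hd with h | h
      · have : ind p (Nat.dist x z) = 1 := if_pos h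
        linarith [hi (x + z)]
      · have : ind p (x + z) = 1 := if_pos h
        linarith [hi (Nat.dist x z)]
    by_cases hpx : p ∣ x
    · have hpz : p ∣ z := by
        rcases hd with h | h
        · have e := hd0.2 h
          rw [hx0.2 hpx] at e
          exact hz0.1 e.symm
        · have e := hs0.2 h
          rw [hx0.2 hpx] at e
          have : (z : ZMod p) = 0 := by linear_combination e
          exact hz0.1 this
      have e1 : ind p x = 1 := if_pos hpx
      have e2 : ind p z = 1 := if_pos hpz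
      linarith
    · have hne : -(x : ZMod p) ≠ (x : ZMod p) := fun h => hpx (hx0.1 ((hneg _).1 h))
      have h5 := pair _ _ hmx' hmx hne
      linarith [hi x, hi z]
  · push Not at hd
    obtain ⟨hd1, hd2⟩ := hd
    have n1 : (x : ZMod p) ≠ z := fun h => hd1 (hd0.1 h)
    have n2 : (x : ZMod p) ≠ -z := fun h => hd2 (hs0.1 h)
    have n3 : -(x : ZMod p) ≠ z := fun h => n2 (by rw [← h, neg_neg])
    have n4 : -(x : ZMod p) ≠ -z := fun h => n1 (neg_injective h)
    have i3 : ind p (Nat.dist x z) = 0 := if_neg hd1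
    have i4 : ind p (x + z) = 0 := if_neg hd2
    rw [i3, i4]
    by_cases hpx : p ∣ x
    · have hx := hx0.2 hpx
      have hz : (z : ZMod p) ≠ 0 := fun h => n1 (by rw [hx, h])
      have hpz : ¬ p ∣ z := fun h => hz (hz0.2 h)
      have hzz : -(z : ZMod p) ≠ z := fun h => hz ((hneg _).1 h)
      have h5 := triple _ _ _ hmx hmz' hmz n2 n1 hzz
      have e1 : ind p x = 1 := if_pos hpx
      have e2 : ind p z = 0 := if_neg hpz
      linarith
    · have hx : (x : ZMod p) ≠ 0 := fun h => hpx (hx0.1 h)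
      have hxx : -(x : ZMod p) ≠ x := fun h => hx ((hneg _).1 h)
      by_cases hpz : p ∣ z
      · have h5 := triple _ _ _ hmx' hmx hmz hxx n3 n1
        have e1 : ind p x = 0 := if_neg hpx
        have e2 : ind p z = 1 := if_pos hpz
        linarith
      · have hz : (z : ZMod p) ≠ 0 := fun h => hpz (hz0.1 h)
        have hzz : -(z : ZMod p) ≠ z := fun h => hz ((hneg _).1 h)
        have h4 : T.card = 4 := by
          rw [hT, card_insert_of_notMem (by
              rw [mem_insert, mem_insert, mem_singleton, not_or, not_or]; exact ⟨hxx, n4, n3⟩),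
            card_insert_of_notMem (by rw [mem_insert, mem_singleton, not_or]; exact ⟨n2, n1⟩), card_pair hzz]
        rw [h4]
        have e1 : ind p x = 0 := if_neg hpx
        have e2 : ind p z = 0 := if_neg hpz
        push_cast
        linarith

end Pool.Agent.Q54.GG
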