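import Pool.Agent.TH935.GF
import Pool.Agent.TH935.DF5
import Pool.Agent.Q54.GG.Exp

set_option autoImplicit false

/-! # The numbers of representations for almost all sums and differences -/

namespace Pool.Agent.Q54.GG

open Finset
open Pool.Agent.W93.PG (WinP cnt)
open Pool.Agent.W93.PP (GoodD pc Cnt Li2)
open Pool.Agent.H560R3.GB (sing C₂)

lemma energy_le (x : ℕ) (s : ℕ → ℕ) (hs : Function.Injective s) : Pool.Agent.H560R3.GB.energy 1 x s ≤ x := by
  classical
  unfold Pool.Agent.H560R3.GB.energy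
  have h : (Icc 1 x).card = x := by rw [Nat.card_Icc]; omega
  calc _ ≤ (Icc 1 x).card := by
        apply card_le_card_of_injOn (fun q : (Fin 1 → ℕ) × (Fin 1 → ℕ) => q.1 0)
        · intro q hq
          rw [mem_coe, mem_filter, mem_product, Fintype.mem_piFinset] at hq
          exact hq.1.1 0
        · intro q hq r hr hqr
          rw [mem_coe, mem_filter] at hq hr
          simp only at hqr
          have h1 : q.1 = r.1 := by
            funext i; rw [Fin.fin_one_eq_zero i]; exact hqr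
          have e1 := hq.2
          have e2 := hr.2
          simp only [Fin.sum_univ_one] at e1 e2
          have h2 : q.2 = r.2 := by
            funext i; rw [Fin.fin_one_eq_zero i]
            apply hs; rw [← e1, ← e2, hqr]
          exact Prod.ext h1 h2
    _ = x := h

lemma energy_le' (x : ℕ) (s : ℕ → ℤ) (hs : Function.Injective s) : Pool.Agent.H373R2.T7.energy 1 x s ≤ x := by
  classical
  unfold Pool.Agent.H373R2.T7.energy
  have h : (Icc 1 x).card = x := by rw [Nat.card_Icc]; omega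
  calc _ ≤ (Icc 1 x).card := by
        apply card_le_card_of_injOn (fun q : (Fin 1 → ℕ) × (Fin 1 → ℕ) => q.1 0)
        · intro q hq
          rw [mem_coe, mem_filter, mem_product, Fintype.mem_piFinset] at hq
          exact hq.1.1 0
        · intro q hq r hr hqr
          rw [mem_coe, mem_filter] at hq hr
          simp only at hqr
          have h1 : q.1 = r.1 := by
            funext i; rw [Fin.fin_one_eq_zero i]; exact hqr
          have e1 := hq.2
          have e2 := hr.2
          simp only [Fin.sum_univ_one] at e1 e2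
          have h2 : q.2 = r.2 := by
            funext i; rw [Fin.fin_one_eq_zero i]
            apply hs; rw [← e1, ← e2, hqr]
          exact Prod.ext h1 h2
    _ = x := h

/-- almost all even numbers have the expected numbers of representations in windows -/
theorem sums (V U : ℕ) : ∃ N₀ : ℕ, ∀ n : ℕ, N₀ ≤ n → ∀ S : Finset ℕ, S ⊆ Icc 1 n →
    (∀ x ∈ S, ¬ WinP (1 / 2) V (2 * x)) → (S.card : ℝ) ≤ n / Real.log n ^ U := by
  obtain ⟨N₀, h⟩ := Pool.Agent.TH935.GF.fam_win 1 2 0 V U 0 le_rfl (1 / 2) (by norm_num)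
    (WinP (1 / 2) V) (fun m _ _ hm => hm)
  refine ⟨N₀, fun n hn S hS hbad => ?_⟩
  have a1 : ∀ m ∈ Icc 1 n, (fun m : ℕ => 2 * m) m ≤ 2 * n ∧ 2 ∣ (fun m : ℕ => 2 * m) m := by
    intro m hm
    rw [mem_Icc] at hm
    simp only
    exact ⟨by omega, Dvd.intro _ rfl⟩
  have a2 : (Pool.Agent.H560R3.GB.energy 1 n (fun m : ℕ => 2 * m) : ℝ) * n ≤ Real.log n ^ 0 * (n : ℝ) ^ (2 * 1) := by
    have h1 := energy_le n (fun m => 2 * m) (fun a b hab => by simp only at hab; omega)
    have h2 : (Pool.Agent.H560R3.GB.energy 1 n (fun m => 2 * m) : ℝ) ≤ n := by exact_mod_cast h1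
    rw [pow_zero, one_mul, mul_one, sq]
    exact mul_le_mul_of_nonneg_right h2 (Nat.cast_nonneg _)
  exact h n hn n (fun m => 2 * m) a1 a2 S hS hbad

/-- almost all even numbers are differences of the expected number of pairs of primes -/
theorem diffs (U W : ℕ) : ∃ N₀ : ℕ, ∀ Y : ℕ, N₀ ≤ Y → ∀ X : ℕ, Y ≤ X → (Y : ℝ) * Real.log X ^ 9 ≤ X →
    (X : ℝ) ≤ Y * Real.log X ^ W → ∀ S : Finset ℕ, S ⊆ Icc 1 Y → (∀ y ∈ S, ¬ GoodD 0 0 3 X (2 * y)) →
    (S.card : ℝ) ≤ Y / Real.log Y ^ U := by
  obtain ⟨N₀, h⟩ := Pool.Agent.TH935.DF.gd_fam 1 0 0 3 U 0 2 W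
  refine ⟨N₀, fun Y hY X hYX h1 h2 S hS hbad => ?_⟩
  have a1 : ∀ m ∈ Icc 1 Y, |(fun m : ℕ => 2 * (m : ℤ)) m| ≤ ((2 : ℕ) : ℤ) * Y := by
    intro m hm
    rw [mem_Icc] at hm
    simp only
    have h3 : (m : ℤ) ≤ Y := by exact_mod_cast hm.2
    have h4 : |(2 * (m : ℤ) : ℤ)| = 2 * m := abs_of_nonneg (by positivity)
    rw [h4]
    push_cast
    omega
  have a2 : (Pool.Agent.H373R2.T7.energy 1 Y (fun m : ℕ => 2 * (m : ℤ)) : ℝ) * Y ≤ Real.log Y ^ 0 * (Y : ℝ) ^ (2 * 1) := by
    have h3 := energy_le' Y (fun m => 2 * (m : ℤ)) (fun a b hab => by simp only at hab; omega)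
    have h4 : (Pool.Agent.H373R2.T7.energy 1 Y (fun m => 2 * (m : ℤ)) : ℝ) ≤ Y := by exact_mod_cast h3
    rw [pow_zero, one_mul, mul_one, sq]
    exact mul_le_mul_of_nonneg_right h4 (Nat.cast_nonneg _)
  refine h Y hY Y (fun m => 2 * (m : ℤ)) a1 a2 X hYX h1 h2 S hS (fun y hy => ⟨by positivity, ?_⟩)
  have e : ((fun m : ℕ => 2 * (m : ℤ)) y).toNat = 2 * y := by simp only; omega
  rw [e]
  exact hbad y hy

lemma D_le_sing (x : ℕ) (hx : 1 ≤ x) : D x ≤ sing (2 * x) := by
  classical
  rw [Pool.Agent.W93.GB.sing_eq]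
  have e : (2 * x).primeFactors.filter (fun p => 2 < p) = x.primeFactors.filter (fun p => 2 < p) := by
    ext p
    rw [mem_filter, mem_filter, Nat.primeFactors_mul (by norm_num) (by omega), mem_union]
    constructor
    · rintro ⟨h1 | h1, h2⟩
      · exfalso
        have := Nat.le_of_dvd (by norm_num) (Nat.dvd_of_mem_primeFactors h1)
        omega
      · exact ⟨h1, h2⟩
    · rintro ⟨h1, h2⟩
      exact ⟨Or.inr h1, h2⟩
  rw [e]
  unfold D
  rw [Real.exp_sum]
  have h1 : ∏ p ∈ x.primeFactors.filter (fun p => 2 < p), Real.exp (1 / (p : ℝ)) ≤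
      ∏ p ∈ x.primeFactors.filter (fun p => 2 < p), Pool.Agent.W93.GB.dv p := by
    apply prod_le_prod
    · intro p _; exact (Real.exp_pos _).le
    · intro p hp
      rw [mem_filter] at hp
      have h3 : (3 : ℝ) ≤ p := by exact_mod_cast hp.2
      unfold Pool.Agent.W93.GB.dv
      have h4 : Real.exp (1 / (p : ℝ)) ≤ 1 / (1 - 1 / (p : ℝ)) := by
        have h5 := Real.add_one_le_exp (-(1 / (p : ℝ)))
        have h6 : 0 < 1 - 1 / (p : ℝ) := by
          have : 1 / (p : ℝ) ≤ 1 / 3 := one_div_le_one_div_of_le (by norm_num) h3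
          linarith
        rw [le_div_iff₀ h6]
        calc Real.exp (1 / (p : ℝ)) * (1 - 1 / p) ≤ Real.exp (1 / (p : ℝ)) * Real.exp (-(1 / (p : ℝ))) :=
              mul_le_mul_of_nonneg_left (by linarith) (Real.exp_pos _).le
          _ = 1 := by rw [← Real.exp_add, add_neg_cancel, Real.exp_zero]
      refine h4.trans ?_
      have h7 : 1 / (1 - 1 / (p : ℝ)) = p / (p - 1) := by
        have : (p : ℝ) ≠ 0 := by linarith
        have h8 : (p : ℝ) - 1 ≠ 0 := by linarith
        field_simp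
      rw [h7, div_le_div_iff₀ (by linarith) (by linarith)]
      nlinarith
  have h2 := Pool.Agent.W93.GB.C2_half
  have h3 : 0 ≤ ∏ p ∈ x.primeFactors.filter (fun p => 2 < p), Pool.Agent.W93.GB.dv p :=
    le_trans (prod_nonneg fun p _ => (Real.exp_pos _).le) h1
  nlinarith

lemma Li2_ge (X : ℕ) (hX : 2 ≤ X) : ((X : ℝ) - 1) / Real.log X ^ 2 - 3 ≤ Li2 X := by
  have h1 := (abs_le.1 (Pool.Agent.W93.PP.sum_int (X : ℝ) (by exact_mod_cast hX))).2
  rw [Nat.floor_natCast] at h1
  have hX2 : (2 : ℝ) ≤ X := by exact_mod_cast hX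
  have h2 : ((X : ℝ) - 1) / Real.log X ^ 2 ≤ ∑ n ∈ Icc 2 X, 1 / Real.log (n : ℝ) ^ 2 := by
    have h3 : ∑ _n ∈ Icc 2 X, 1 / Real.log (X : ℝ) ^ 2 ≤ ∑ n ∈ Icc 2 X, 1 / Real.log (n : ℝ) ^ 2 := by
      apply sum_le_sum
      intro n hn
      rw [mem_Icc] at hn
      have h4 : (2 : ℝ) ≤ n := by exact_mod_cast hn.1
      have h5 : 0 < Real.log n := Real.log_pos (by linarith)
      have h6 : Real.log n ≤ Real.log X := Real.log_le_log (by linarith) (by exact_mod_cast hn.2)
      exact one_div_le_one_div_of_le (by positivity) (pow_le_pow_left₀ h5.le h6 2)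
    rw [sum_const, Nat.card_Icc, nsmul_eq_mul] at h3
    refine le_trans (le_of_eq ?_) h3
    rw [show X + 1 - 2 = X - 1 by omega, Nat.cast_sub (by omega)]
    push_cast
    ring
  linarith

/-- the number of pairs of primes with a given sum near the middle -/
lemma cnt_eq (x Y : ℕ) (hY : Y < x) : cnt (2 * x) x (x + Y) =
    ((Icc 1 Y).filter (fun y => (x + y).Prime ∧ (x - y).Prime)).card := by
  classical
  unfold cnt
  symm
  apply card_bij (fun y _ => x + y)
  · intro y hy
    rw [mem_filter, mem_Icc] at hy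
    rw [mem_filter, mem_Ioc, show 2 * x - (x + y) = x - y by omega]
    exact ⟨by omega, hy.2⟩
  · intro y _ y' _ h
    omega
  · intro p hp
    rw [mem_filter, mem_Ioc] at hp
    refine ⟨p - x, ?_, by omega⟩
    rw [mem_filter, mem_Icc, show x + (p - x) = p by omega, show x - (p - x) = 2 * x - p by omega]
    exact ⟨by omega, hp.2⟩

/-- the pairs of primes with difference `2 y` -/
lemma diff_count (X y w : ℕ) (hX : 2 ≤ X) (hy : 1 ≤ y) (hg : GoodD 0 0 3 X (2 * y)) :
    ((X : ℝ) - 1) / Real.log X ^ 2 - 3 - X / Real.log X ^ 3 - (w + 1) ≤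
      (((Icc 1 X).filter (fun z => w + y < z ∧ (z + y).Prime ∧ (z - y).Prime)).card : ℝ) := by
  classical
  have h1 := hg 0 1 0 (by norm_num) le_rfl (by norm_num) (by norm_num) (by norm_num) ⟨y, by ring⟩ (by omega)
    (X : ℝ) (by exact_mod_cast hX) le_rfl
  rw [add_zero] at h1
  have hC : Cnt 1 (2 * y) = 1 := by
    unfold Cnt
    rw [show ((range 1).filter (fun A => Nat.Coprime A 1 ∧ Nat.Coprime (A + 2 * y) 1)) = {0} by
      ext A; simp]
    rfl
  rw [hC, Nat.cast_one, div_one] at h1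
  have h2 := (abs_le.1 h1).1
  have h3 := Li2_ge X hX
  have hs : 1 ≤ sing (2 * y) := Pool.Agent.W93.GB.one_le_sing _
  have h4 : (pc (2 * y) X 0 1 : ℝ) ≤
      (((Icc 1 X).filter (fun z => w + y < z ∧ (z + y).Prime ∧ (z - y).Prime)).card : ℝ) + (w + 1) := by
    have h5 : pc (2 * y) X 0 1 ≤
        ((Icc 1 X).filter (fun z => w + y < z ∧ (z + y).Prime ∧ (z - y).Prime)).card + (w + 1) := by
      unfold pc
      rw [Nat.floor_natCast]
      have h6 : (range (X + 1)).filter (fun p => p.Prime ∧ (p + 2 * y).Prime ∧ (p : ℝ) + (2 * y : ℕ) ≤ X ∧ p ≡ 0 [MOD 1]) ⊆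
          (((Icc 1 X).filter (fun z => w + y < z ∧ (z + y).Prime ∧ (z - y).Prime)).image (fun z => z - y)) ∪
            range (w + 1) := by
        intro p hp
        rw [mem_filter, mem_range] at hp
        obtain ⟨hp1, hp2, hp3, hp4, _⟩ := hp
        have hp5 : p + 2 * y ≤ X := by exact_mod_cast hp4
        rw [mem_union]
        by_cases hpw : p < w + 1
        · right; rw [mem_range]; exact hpw
        · left
          rw [mem_image]
          refine ⟨p + y, ?_, by omega⟩
          rw [mem_filter, mem_Icc, show p + y + y = p + 2 * y by ring, show p + y - y = p by omega]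
          exact ⟨by omega, by omega, hp3, hp2⟩
      refine (card_le_card h6).trans ((card_union_le _ _).trans ?_)
      rw [card_range]
      exact Nat.add_le_add_right card_image_le _
    exact_mod_cast h5
  by_cases hL : 0 ≤ Li2 X
  · have h7 : Li2 X ≤ sing (2 * y) * Li2 X := by nlinarith
    linarith
  · exfalso
    apply hL
    unfold Li2
    apply intervalIntegral.integral_nonneg (by exact_mod_cast hX)
    intro t _
    positivity

end Pool.Agent.Q54.GG
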