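import Pool.Agent.Q54.GG.Inp

set_option autoImplicit false

/-! # The second neighbourhoods of almost all vertices are large -/

namespace Pool.Agent.Q54.GG

open Finset
open Pool.Agent.W93.PG (WinP cnt)
open Pool.Agent.W93.PP (GoodD)
open Pool.Agent.H560R3.GB (sing)

lemma big (M : ℕ) (T : ℝ) : ∃ N : ℕ, ∀ n : ℕ, N ≤ n → T ≤ Real.log n ∧ Real.log n ^ M ≤ n := by
  have h1 : ∀ᶠ x : ℝ in Filter.atTop, T ≤ Real.log x := Real.tendsto_log_atTop.eventually_ge_atTop T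
  have h2 : ∀ᶠ x : ℝ in Filter.atTop, Real.log x ^ M ≤ x := by
    have h := (Real.isLittleO_pow_log_id_atTop (n := M)).bound (show (0 : ℝ) < 1 by norm_num)
    filter_upwards [h, Filter.eventually_ge_atTop (1 : ℝ)] with x hx hx1
    rw [one_mul, id, Real.norm_of_nonneg (by linarith : (0 : ℝ) ≤ x)] at hx
    exact (le_abs_self _).trans hx
  have h3 := tendsto_natCast_atTop_atTop.eventually (h1.and h2)
  obtain ⟨N, hN⟩ := Filter.eventually_atTop.1 h3
  exact ⟨N, fun n hn => hN n hn⟩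

lemma zbound {n X l L w R : ℝ} (hnpos : 100 ≤ n) (hL : 1000000 ≤ L) (hX1 : n / 2 - 1 ≤ X) (hX2 : X ≤ n / 2)
    (hlogX1 : L / 2 ≤ l) (hlogX2 : l ≤ L) (hw : w ≤ R) (hRR : R * R = n) (hR1 : 1 ≤ R) (hR3 : L ^ 3 ≤ R) :
    n / (8 * L ^ 2) ≤ (X - 1) / l ^ 2 - 3 - X / l ^ 3 - (w + 1) := by
  have hL0 : 0 < L := by linarith
  have hl0 : 0 < l := by linarith
  have h5 : 3 * n / 8 / L ^ 2 ≤ (X - 1) / l ^ 2 := by
    apply div_le_div₀ (by linarith) (by linarith) (by positivity)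
    exact pow_le_pow_left₀ hl0.le hlogX2 2
  have h6 : X / l ^ 3 ≤ n / 16 / L ^ 2 := by
    have h7 : X / l ^ 3 ≤ (n / 2) / (L / 2) ^ 3 := by
      apply div_le_div₀ (by linarith) hX2 (by positivity)
      exact pow_le_pow_left₀ (by positivity) hlogX1 3
    refine h7.trans ?_
    rw [div_le_div_iff₀ (by positivity) (by positivity)]
    have h8 : (L / 2) ^ 3 = L ^ 2 * (L / 8) := by ring
    rw [h8]
    have h9 : n / 2 ≤ n / 16 * (L / 8) := by nlinarith
    calc n / 2 * L ^ 2 ≤ n / 16 * (L / 8) * L ^ 2 := mul_le_mul_of_nonneg_right h9 (by positivity)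
      _ = n / 16 * (L ^ 2 * (L / 8)) := by ring
  have h10 : 3 + (w + 1) ≤ n / 16 / L ^ 2 := by
    rw [le_div_iff₀ (by positivity)]
    have h12 : 3 + (w + 1) ≤ 5 * R := by linarith
    have h13 : 80 * L ^ 2 ≤ R := by
      have : 80 * L ^ 2 ≤ L ^ 3 := by
        have e : L ^ 3 = L * L ^ 2 := by ring
        rw [e]; exact mul_le_mul_of_nonneg_right (by linarith) (by positivity)
      linarith
    have hR0 : 0 ≤ R := by linarith
    calc (3 + (w + 1)) * L ^ 2 ≤ 5 * R * L ^ 2 := mul_le_mul_of_nonneg_right h12 (by positivity)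
      _ = R * (80 * L ^ 2) / 16 := by ring
      _ ≤ R * R / 16 := by gcongr
      _ = n / 16 := by rw [hRR]
  have h14 : n / (8 * L ^ 2) = 3 * n / 8 / L ^ 2 - n / 16 / L ^ 2 - n / 16 / L ^ 2 - n / 8 / L ^ 2 := by
    field_simp; ring
  have h15 : 0 ≤ n / 8 / L ^ 2 := by positivity
  linarith

lemma conclude {n Y L D0 C K lw W XXc bi R LB : ℝ} (hn : 0 < n) (hL : 1 ≤ L) (hD : 1 ≤ D0) (hC : 0 < C)
    (hK : 1 ≤ K) (hlw : L / (4 * K) ≤ lw) (hLn : L ^ 8 ≤ n) (hY : 0 < Y) (hW : W ≤ R)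
    (hR0 : 0 < R) (hLB : 0 < LB) (hRL : L ^ 8 ≤ R) (hYlow : n / (8 * LB) ≤ Y) (hbigq : 8 * LB * L ^ 8 ≤ R)
    (hRR : R * R = n)
    (hXX : D0 * Y / (16 * L ^ 2) ≤ XXc)
    (hmain : (XXc * (n / (8 * L ^ 2))) ^ 2 ≤ bi * (Y ^ 2 + (C * Y / lw ^ 4) ^ 2 * D0 ^ 2 * n + 2 * (n * W)))
    (hbi : 0 ≤ bi) : n ≤ 16384 * (C ^ 2 * (4 * K) ^ 8 + 3) * bi := by
  obtain ⟨G, hG⟩ : ∃ G : ℝ, G = D0 ^ 2 * Y ^ 2 * n / L ^ 8 := ⟨_, rfl⟩
  have hG0 : 0 < G := by rw [hG]; positivity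
  have hL8 : 1 ≤ L ^ 8 := one_le_pow₀ hL
  have hlow : G * n / 16384 ≤ (XXc * (n / (8 * L ^ 2))) ^ 2 := by
    have h4 : (D0 * Y / (16 * L ^ 2) * (n / (8 * L ^ 2))) ^ 2 ≤ (XXc * (n / (8 * L ^ 2))) ^ 2 := by
      apply pow_le_pow_left₀ (by positivity)
      exact mul_le_mul_of_nonneg_right hXX (by positivity)
    refine le_trans (le_of_eq ?_) h4
    rw [hG]
    field_simp
    norm_num
  have hD2 : 1 ≤ D0 ^ 2 := one_le_pow₀ hD
  have t1 : Y ^ 2 ≤ G := by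
    rw [hG, le_div_iff₀ (by positivity)]
    calc Y ^ 2 * L ^ 8 ≤ Y ^ 2 * n := mul_le_mul_of_nonneg_left hLn (by positivity)
      _ = 1 * Y ^ 2 * n := by ring
      _ ≤ D0 ^ 2 * Y ^ 2 * n := by gcongr
  have t2 : (C * Y / lw ^ 4) ^ 2 * D0 ^ 2 * n ≤ C ^ 2 * (4 * K) ^ 8 * G := by
    have h4 : C * Y / lw ^ 4 ≤ C * Y / (L / (4 * K)) ^ 4 := by
      apply div_le_div_of_nonneg_left (by positivity) (by positivity)
      exact pow_le_pow_left₀ (by positivity) hlw 4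
    have hlw0 : 0 ≤ lw := le_trans (by positivity) hlw
    have h5 : (C * Y / lw ^ 4) ^ 2 ≤ (C * Y / (L / (4 * K)) ^ 4) ^ 2 :=
      pow_le_pow_left₀ (by positivity) h4 2
    calc (C * Y / lw ^ 4) ^ 2 * D0 ^ 2 * n ≤ (C * Y / (L / (4 * K)) ^ 4) ^ 2 * D0 ^ 2 * n := by gcongr
      _ = C ^ 2 * (4 * K) ^ 8 * G := by rw [hG]; field_simp
  have t3 : n * W ≤ G := by
    have h4 : n * W ≤ n * R := mul_le_mul_of_nonneg_left hW hn.le
    refine h4.trans ?_
    rw [hG, le_div_iff₀ (by positivity)]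
    have h5 : n ≤ 8 * LB * L ^ 8 * Y := by
      have h6 : n ≤ Y * (8 * LB) := by rwa [div_le_iff₀ (by positivity)] at hYlow
      have h7 : Y * (8 * LB) ≤ Y * (8 * LB) * L ^ 8 := le_mul_of_one_le_right (by positivity) hL8
      linarith
    have h9 : n ≤ R * Y := h5.trans (mul_le_mul_of_nonneg_right hbigq hY.le)
    have h10 : R * L ^ 8 ≤ R * R := mul_le_mul_of_nonneg_left hRL hR0.le
    have h11 : R ≤ Y := by
      rw [← hRR] at h9
      exact le_of_mul_le_mul_left h9 hR0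
    have h8 : R * L ^ 8 ≤ Y ^ 2 := by
      calc R * L ^ 8 ≤ R * R := h10
        _ ≤ Y * Y := mul_le_mul h11 h11 hR0.le hY.le
        _ = Y ^ 2 := by ring
    calc n * R * L ^ 8 = 1 * (R * L ^ 8) * n := by ring
      _ ≤ D0 ^ 2 * Y ^ 2 * n := by gcongr
  have hup : Y ^ 2 + (C * Y / lw ^ 4) ^ 2 * D0 ^ 2 * n + 2 * (n * W) ≤ (C ^ 2 * (4 * K) ^ 8 + 3) * G := by
    have t4 : (C ^ 2 * (4 * K) ^ 8 + 3) * G = C ^ 2 * (4 * K) ^ 8 * G + 3 * G := by ring
    rw [t4]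
    linarith
  have hfin : G * n / 16384 ≤ bi * ((C ^ 2 * (4 * K) ^ 8 + 3) * G) :=
    hlow.trans (hmain.trans (mul_le_mul_of_nonneg_left hup hbi))
  have e1 : G * n / 16384 = (n / 16384) * G := by ring
  have e2 : bi * ((C ^ 2 * (4 * K) ^ 8 + 3) * G) = (bi * (C ^ 2 * (4 * K) ^ 8 + 3)) * G := by ring
  rw [e1, e2] at hfin
  have h4 := le_of_mul_le_mul_right hfin hG0
  linarith

/-- the set of the vertices which are joined to `x` by a path of two steps -/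
noncomputable def Two (n x : ℕ) : Finset ℕ :=
  open Classical in (Icc 1 n).filter (fun z => ∃ y : ℕ, 1 ≤ y ∧ y < x ∧ y < z ∧ (x + y).Prime ∧ (x - y).Prime ∧
    (z + y).Prime ∧ (z - y).Prime)

set_option maxHeartbeats 2000000 in
theorem second : ∃ c : ℝ, 0 < c ∧ ∀ A : ℕ, ∃ N : ℕ, ∀ n : ℕ, N ≤ n → ∃ E : Finset ℕ,
    (E.card : ℝ) ≤ n / Real.log n ^ A ∧ ∀ x : ℕ, x ≤ n → x ∉ E → 1 ≤ x ∧ c * n ≤ (Two n x).card := by
  classical
  obtain ⟨K, C, w₀, hK, hC, hw₀, hexp⟩ := expand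
  obtain ⟨Θ, hΘ⟩ : ∃ Θ : ℝ, Θ = C ^ 2 * (4 * K) ^ 8 + 3 := ⟨_, rfl⟩
  have hΘ0 : 0 < Θ := by rw [hΘ]; positivity
  refine ⟨1 / (16384 * Θ), by positivity, fun A => ?_⟩
  obtain ⟨B, hB⟩ : ∃ B, B = A + 12 := ⟨_, rfl⟩
  obtain ⟨n1, h1⟩ := sums (B + 2) (A + 2)
  obtain ⟨n2, h2⟩ := diffs 3 (B + 1)
  obtain ⟨n3, h3⟩ := big (4 * B + 60) (2 ^ (B + 20))
  refine ⟨n1 + n2 ^ 2 + n3 + (2 * (w₀ + 2)) ^ (4 * K) + 100, fun n hn => ?_⟩
  obtain ⟨hT, hM⟩ := h3 n (by omega)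
  obtain ⟨L, hL⟩ : ∃ L, L = Real.log (n : ℝ) := ⟨_, rfl⟩
  rw [← hL] at hT hM ⊢
  have hn0 : (100 : ℝ) ≤ n := by exact_mod_cast (by omega : 100 ≤ n)
  have hnpos : (0 : ℝ) < n := by linarith
  have hL20 : (2 : ℝ) ^ 20 ≤ L := by
    refine le_trans ?_ hT
    exact pow_le_pow_right₀ (by norm_num) (by omega)
  have hL1 : (1 : ℝ) ≤ L := by linarith [show (1 : ℝ) ≤ 2 ^ 20 by norm_num]
  have hL0 : 0 < L := by linarith
  have hLbig : (1000000 : ℝ) ≤ L := by linarith [show (1000000 : ℝ) ≤ 2 ^ 20 by norm_num]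
  have hpow : ∀ k : ℕ, k ≤ 4 * B + 60 → L ^ k ≤ n := fun k hk => (pow_le_pow_right₀ hL1 hk).trans hM
  have h2B : (2 : ℝ) ^ B * 2 ^ 20 ≤ L := by rw [← pow_add]; exact hT
  have h2B1 : (1 : ℝ) ≤ 2 ^ B := one_le_pow₀ (by norm_num)
  -- square root
  obtain ⟨R, hR⟩ : ∃ R, R = √(n : ℝ) := ⟨_, rfl⟩
  have hRR : R * R = n := by rw [hR]; exact Real.mul_self_sqrt hnpos.le
  have hR0 : 0 < R := by rw [hR]; exact Real.sqrt_pos.2 hnpos
  have hRpow : ∀ k : ℕ, k ≤ 2 * B + 30 → L ^ k ≤ R := by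
    intro k hk
    rw [hR]
    apply Real.le_sqrt_of_sq_le
    rw [← pow_mul]
    exact hpow _ (by omega)
  have hlogR : Real.log R = L / 2 := by
    rw [hR, Real.log_sqrt hnpos.le, hL]
  -- X
  obtain ⟨X, hX⟩ : ∃ X : ℕ, X = n / 2 := ⟨_, rfl⟩
  have hXn : X ≤ n := by omega
  have hX2 : (X : ℝ) ≤ n / 2 := by
    have : 2 * X ≤ n := by omega
    have : (2 : ℝ) * X ≤ n := by exact_mod_cast this
    linarith
  have hX1 : (n : ℝ) / 2 - 1 ≤ X := by
    have : n ≤ 2 * X + 1 := by omega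
    have : (n : ℝ) ≤ 2 * X + 1 := by exact_mod_cast this
    linarith
  have hXpos : (0 : ℝ) < X := by linarith
  have hlogX1 : L / 2 ≤ Real.log X := by
    rw [← hlogR]
    apply Real.log_le_log hR0
    have h4 : L ^ 1 ≤ R := hRpow 1 (by omega)
    rw [pow_one] at h4
    nlinarith
  have hlogX2 : Real.log X ≤ L := by
    rw [hL]; exact Real.log_le_log hXpos (by exact_mod_cast hXn)
  obtain ⟨l, hl⟩ : ∃ l, l = Real.log (X : ℝ) := ⟨_, rfl⟩
  rw [← hl] at hlogX1 hlogX2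
  have hl0 : 0 < l := by linarith
  have hl1 : 1 ≤ l := by linarith
  -- Y
  obtain ⟨Y, hY⟩ : ∃ Y : ℕ, Y = ⌊(X : ℝ) / l ^ B⌋₊ := ⟨_, rfl⟩
  have hlB : 0 < l ^ B := by positivity
  have hLB : 0 < L ^ B := by positivity
  have hY1 : (Y : ℝ) ≤ X / l ^ B := by rw [hY]; exact Nat.floor_le (by positivity)
  have hY2 : (X : ℝ) / l ^ B < Y + 1 := by rw [hY]; exact Nat.lt_floor_add_one _
  have hlBL : l ^ B ≤ L ^ B := pow_le_pow_left₀ hl0.le hlogX2 B
  have hXl : (n : ℝ) / (4 * L ^ B) ≤ X / l ^ B := by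
    rw [div_le_div_iff₀ (by positivity) hlB]
    have h4 : (n : ℝ) / 4 ≤ X := by linarith
    calc (n : ℝ) * l ^ B ≤ n * L ^ B := mul_le_mul_of_nonneg_left hlBL hnpos.le
      _ = (n / 4) * (4 * L ^ B) := by ring
      _ ≤ X * (4 * L ^ B) := mul_le_mul_of_nonneg_right h4 (by positivity)
  have hbigq : 8 * L ^ B * L ^ 8 ≤ R := by
    have h4 : 8 * L ^ B * L ^ 8 ≤ L ^ (B + 9) := by
      have h5 : (8 : ℝ) ≤ L := by linarith
      calc 8 * L ^ B * L ^ 8 ≤ L * L ^ B * L ^ 8 := by gcongr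
        _ = L ^ (B + 9) := by ring
    exact h4.trans (hRpow _ (by omega))
  have hL8 : (1 : ℝ) ≤ L ^ 8 := one_le_pow₀ hL1
  have hR1 : 1 ≤ R := by
    have := hRpow 0 (by omega)
    rwa [pow_zero] at this
  have hYlow : (n : ℝ) / (8 * L ^ B) ≤ Y := by
    have h4 : 1 ≤ (n : ℝ) / (8 * L ^ B) := by
      rw [le_div_iff₀ (by positivity), one_mul]
      have h5 : 8 * L ^ B ≤ 8 * L ^ B * L ^ 8 := le_mul_of_one_le_right (by positivity) hL8
      nlinarith
    have h6 : (n : ℝ) / (4 * L ^ B) = 2 * (n / (8 * L ^ B)) := by field_simp; ring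
    linarith
  have hYR : R ≤ Y := by
    refine le_trans ?_ hYlow
    rw [le_div_iff₀ (by positivity)]
    have h5 : 8 * L ^ B ≤ 8 * L ^ B * L ^ 8 := le_mul_of_one_le_right (by positivity) hL8
    calc R * (8 * L ^ B) ≤ R * R := mul_le_mul_of_nonneg_left (h5.trans hbigq) hR0.le
      _ = n := hRR
  have hYpos : (0 : ℝ) < Y := by linarith
  have hYnat : 1 ≤ Y := by
    have : (0 : ℝ) < Y := hYpos
    have h4 : 0 < Y := by exact_mod_cast this
    omega
  have hYup : (Y : ℝ) ≤ n * 2 ^ B / L ^ B := by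
    refine hY1.trans ?_
    rw [div_le_div_iff₀ hlB hLB]
    have h4 : L ^ B ≤ 2 ^ B * l ^ B := by
      rw [← mul_pow]; exact pow_le_pow_left₀ hL0.le (by linarith) B
    calc (X : ℝ) * L ^ B ≤ n * (2 ^ B * l ^ B) := by
          apply mul_le_mul (by linarith) h4 (by positivity) hnpos.le
      _ = n * 2 ^ B * l ^ B := by ring
  have hYX : Y ≤ X := by
    have h4 : (Y : ℝ) ≤ X := hY1.trans (div_le_self hXpos.le (one_le_pow₀ hl1))
    exact_mod_cast h4
  have hlogY1 : L / 2 ≤ Real.log Y := by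
    rw [← hlogR]; exact Real.log_le_log hR0 hYR
  -- the exceptional sets
  have hdiff := h2 Y (by
      have h4 : (n2 : ℝ) ≤ R := by
        rw [hR]; apply Real.le_sqrt_of_sq_le
        exact_mod_cast (by omega : n2 ^ 2 ≤ n)
      have h5 : (n2 : ℝ) ≤ Y := h4.trans hYR
      exact_mod_cast h5) X hYX (by
      rw [← hl]
      calc (Y : ℝ) * l ^ 9 ≤ (X / l ^ B) * l ^ 9 := mul_le_mul_of_nonneg_right hY1 (by positivity)
        _ ≤ (X / l ^ B) * l ^ B := by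
            apply mul_le_mul_of_nonneg_left _ (by positivity)
            exact pow_le_pow_right₀ hl1 (by omega)
        _ = X := by field_simp) (by
      rw [← hl]
      have h4 : (X : ℝ) / l ^ B ≤ 2 * Y := by linarith [show (1 : ℝ) ≤ Y by exact_mod_cast hYnat]
      have h5 : (2 : ℝ) ≤ l := by linarith
      rw [div_le_iff₀ hlB] at h4
      calc (X : ℝ) ≤ 2 * Y * l ^ B := h4
        _ ≤ l * Y * l ^ B := by gcongr
        _ = Y * l ^ (B + 1) := by ring)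
  obtain ⟨E0, hE0⟩ : ∃ E0, E0 = (Icc 1 n).filter (fun x => ¬ WinP (1 / 2) (B + 2) (2 * x)) := ⟨_, rfl⟩
  obtain ⟨s, hs⟩ : ∃ s : ℕ, s = ⌊(n : ℝ) / L ^ (A + 1)⌋₊ := ⟨_, rfl⟩
  refine ⟨E0 ∪ range (s + 1), ?_, ?_⟩
  · have c1 := h1 n (by omega) E0 (by rw [hE0]; exact filter_subset _ _) (fun x hx => by
      rw [hE0, mem_filter] at hx; exact hx.2)
    rw [← hL] at c1
    have c2 : ((E0 ∪ range (s + 1)).card : ℝ) ≤ E0.card + (s + 1) := by
      have := card_union_le E0 (range (s + 1))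
      rw [card_range] at this
      exact_mod_cast this
    have c3 : (s : ℝ) ≤ n / L ^ (A + 1) := by rw [hs]; exact Nat.floor_le (by positivity)
    have c4 : (n : ℝ) / L ^ (A + 2) ≤ n / L ^ (A + 1) := by
      apply div_le_div_of_nonneg_left hnpos.le (by positivity)
      exact pow_le_pow_right₀ hL1 (by omega)
    have c5 : (1 : ℝ) ≤ n / L ^ (A + 1) := by
      rw [le_div_iff₀ (by positivity), one_mul]; exact hpow _ (by omega)
    have c6 : 3 * ((n : ℝ) / L ^ (A + 1)) ≤ n / L ^ A := by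
      rw [pow_succ, ← div_div]
      have : 0 < (n : ℝ) / L ^ A := by positivity
      rw [mul_div_assoc', div_le_iff₀ hL0]
      nlinarith
    linarith
  -- a good vertex
  intro x hxn hxE
  rw [mem_union, not_or, mem_range, not_lt] at hxE
  obtain ⟨hxE0, hxs⟩ := hxE
  have hx1 : 1 ≤ x := by omega
  refine ⟨hx1, ?_⟩
  have hxn' : (x : ℝ) ≤ n := by exact_mod_cast hxn
  have hwin : WinP (1 / 2) (B + 2) (2 * x) := by
    by_contra hcon
    exact hxE0 (by rw [hE0, mem_filter, mem_Icc]; exact ⟨⟨hx1, hxn⟩, hcon⟩)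
  have hxlow : (n : ℝ) / L ^ (A + 1) < x := by
    have h4 : (n : ℝ) / L ^ (A + 1) < s + 1 := by rw [hs]; exact Nat.lt_floor_add_one _
    have h5 : ((s + 1 : ℕ) : ℝ) ≤ x := by exact_mod_cast hxs
    push_cast at h5
    linarith
  have hxpos : (0 : ℝ) < x := by exact_mod_cast hx1
  -- w
  obtain ⟨w, hw⟩ : ∃ w : ℕ, w = ⌊(n : ℝ) ^ (1 / (2 * (K : ℝ)))⌋₊ := ⟨_, rfl⟩
  have hKr : (1 : ℝ) ≤ K := by exact_mod_cast hK
  obtain ⟨q, hq⟩ : ∃ q : ℝ, q = (n : ℝ) ^ (1 / (4 * (K : ℝ))) := ⟨_, rfl⟩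
  have hq0 : 0 < q := by rw [hq]; positivity
  have hqq : (n : ℝ) ^ (1 / (2 * (K : ℝ))) = q * q := by
    rw [hq, ← Real.rpow_add hnpos]
    congr 1
    field_simp; ring
  have hqK : (q * q) ^ K = R := by
    rw [← hqq, ← Real.rpow_natCast, ← Real.rpow_mul hnpos.le, hR, Real.sqrt_eq_rpow]
    congr 1
    field_simp
  have hqbig : 2 * ((w₀ : ℝ) + 2) ≤ q := by
    have h4 : ((2 * (w₀ + 2)) ^ (4 * K) : ℕ) ≤ n := by omega
    have h5 : (2 * ((w₀ : ℝ) + 2)) ^ (4 * K) ≤ n := by exact_mod_cast h4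
    have h6 : ((2 * ((w₀ : ℝ) + 2)) ^ (4 * K)) ^ (1 / (4 * (K : ℝ))) ≤ (n : ℝ) ^ (1 / (4 * (K : ℝ))) :=
      Real.rpow_le_rpow (by positivity) h5 (by positivity)
    rw [← hq, ← Real.rpow_natCast, ← Real.rpow_mul (by positivity)] at h6
    have h7 : ((4 * K : ℕ) : ℝ) * (1 / (4 * (K : ℝ))) = 1 := by push_cast; field_simp
    rw [h7, Real.rpow_one] at h6
    exact h6
  have hw₀r : (0 : ℝ) ≤ w₀ := Nat.cast_nonneg _
  have hw1 : (w : ℝ) ≤ q * q := by rw [hw, hqq]; exact Nat.floor_le (by positivity)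
  have hw2 : q ≤ w := by
    have h4 : q * q < w + 1 := by rw [hw, ← hqq]; exact Nat.lt_floor_add_one _
    nlinarith
  have hww : w₀ ≤ w := by
    have : (w₀ : ℝ) ≤ w := by linarith
    exact_mod_cast this
  have hwK : (w : ℝ) ^ K ≤ R := by rw [← hqK]; exact pow_le_pow_left₀ (Nat.cast_nonneg _) hw1 K
  have hwR : (w : ℝ) ≤ R := by
    refine le_trans ?_ hwK
    exact le_self_pow₀ (by linarith) (by omega)
  have hlogw : L / (4 * K) ≤ Real.log w := by
    have h4 : Real.log q = L / (4 * K) := by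
      rw [hq, Real.log_rpow hnpos, hL]; ring
    rw [← h4]
    exact Real.log_le_log hq0 hw2
  -- `w + Y < x`
  have hquart : (w : ℝ) + Y < x := by
    have h4 : R ≤ n / (2 * L ^ (A + 1)) := by
      rw [le_div_iff₀ (by positivity)]
      have h5 : 2 * L ^ (A + 1) ≤ R := by
        have h6 : 2 * L ^ (A + 1) ≤ L ^ (A + 2) := by
          calc 2 * L ^ (A + 1) ≤ L * L ^ (A + 1) := mul_le_mul_of_nonneg_right (by linarith) (by positivity)
            _ = L ^ (A + 2) := by ring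
        exact h6.trans (hRpow _ (by omega))
      calc R * (2 * L ^ (A + 1)) ≤ R * R := mul_le_mul_of_nonneg_left h5 hR0.le
        _ = n := hRR
    have h7 : (Y : ℝ) ≤ n / (2 * L ^ (A + 1)) := by
      refine hYup.trans ?_
      rw [div_le_div_iff₀ hLB (by positivity), hB]
      have h8 : 2 ^ B * 2 * L ^ (A + 1) ≤ L ^ (A + 12) := by
        calc 2 ^ B * 2 * L ^ (A + 1) ≤ L * L * L ^ (A + 1) := by
              gcongr
              · linarith [show (2 : ℝ) ^ B ≤ 2 ^ B * 2 ^ 20 from le_mul_of_one_le_right (by positivity) (by norm_num)]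
              · linarith
          _ = L ^ (A + 3) := by ring
          _ ≤ L ^ (A + 12) := pow_le_pow_right₀ hL1 (by omega)
      rw [hB] at h8
      calc (n : ℝ) * 2 ^ (A + 12) * (2 * L ^ (A + 1)) = n * (2 ^ (A + 12) * 2 * L ^ (A + 1)) := by ring
        _ ≤ n * L ^ (A + 12) := mul_le_mul_of_nonneg_left h8 hnpos.le
    have h9 : (n : ℝ) / (2 * L ^ (A + 1)) + n / (2 * L ^ (A + 1)) = n / L ^ (A + 1) := by field_simp; ring
    linarith
  have hwY : w + Y < x := by exact_mod_cast hquart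
  -- the first neighbourhood
  have hlog2x1 : L / 2 ≤ Real.log ((2 * x : ℕ) : ℝ) := by
    rw [← hlogR]
    apply Real.log_le_log hR0
    push_cast
    linarith
  have hlog2x2 : Real.log ((2 * x : ℕ) : ℝ) ≤ 2 * L := by
    have h4 : ((2 * x : ℕ) : ℝ) ≤ n * n := by
      push_cast; nlinarith
    have h5 : Real.log ((n : ℝ) * n) = 2 * L := by
      rw [Real.log_mul hnpos.ne' hnpos.ne', hL]; ring
    rw [← h5]
    exact Real.log_le_log (by push_cast; positivity) h4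
  have hcnt := hwin x (x + Y) (by omega) (by omega) (by
    push_cast
    have h4 : (L / 2) ^ (B + 2) ≤ Real.log (2 * (x : ℝ)) ^ (B + 2) := by
      apply pow_le_pow_left₀ (by positivity)
      have := hlog2x1
      push_cast at this
      exact this
    have h5 : (2 : ℝ) * x / Real.log (2 * (x : ℝ)) ^ (B + 2) ≤ 2 * n / (L / 2) ^ (B + 2) :=
      div_le_div₀ (by positivity) (by linarith) (by positivity) h4
    have h6 : (2 : ℝ) * n / (L / 2) ^ (B + 2) ≤ n / (8 * L ^ B) := by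
      rw [div_pow, div_div_eq_mul_div, div_le_div_iff₀ (by positivity) (by positivity)]
      have h7 : (2 : ℝ) * 2 ^ (B + 2) * 8 ≤ L ^ 2 := by
        have h8 : (2 : ℝ) * 2 ^ (B + 2) * 8 = 2 ^ B * 64 := by ring
        rw [h8]
        have h9 : (2 : ℝ) ^ B * 64 ≤ 2 ^ B * 2 ^ 20 := by gcongr; norm_num
        nlinarith
      calc (2 : ℝ) * n * 2 ^ (B + 2) * (8 * L ^ B) = n * (2 * 2 ^ (B + 2) * 8) * L ^ B := by ring
        _ ≤ n * L ^ 2 * L ^ B := by gcongr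
        _ = n * L ^ (B + 2) := by ring
    linarith)
  rw [cnt_eq x Y (by omega)] at hcnt
  obtain ⟨X0, hX0⟩ : ∃ X0, X0 = (Icc 1 Y).filter (fun y => (x + y).Prime ∧ (x - y).Prime) := ⟨_, rfl⟩
  rw [← hX0] at hcnt
  have hsing1 : 1 ≤ sing (2 * x) := Pool.Agent.W93.GB.one_le_sing _
  have hD := D_le_sing x hx1
  have hD1 := one_le_D x
  have hX0card : sing (2 * x) * Y / (8 * L ^ 2) ≤ X0.card := by
    have h4 := (abs_le.1 hcnt).1
    push_cast at h4
    rw [show (x : ℝ) + Y - x = Y by ring] at h4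
    have h5 : sing (2 * x) * Y / (2 * L) ^ 2 ≤ sing (2 * x) * Y / Real.log (2 * (x : ℝ)) ^ 2 := by
      have h6 : 0 < Real.log (2 * (x : ℝ)) := by
        have := hlog2x1; push_cast at this; linarith
      apply div_le_div_of_nonneg_left (by positivity) (by positivity)
      apply pow_le_pow_left₀ h6.le
      have := hlog2x2; push_cast at this; exact this
    have h7 : sing (2 * x) * Y / (8 * L ^ 2) = 1 / 2 * (sing (2 * x) * Y / (2 * L) ^ 2) := by
      field_simp; ring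
    rw [h7]
    linarith
  obtain ⟨F, hF⟩ : ∃ F, F = (Icc 1 Y).filter (fun y => ¬ GoodD 0 0 3 X (2 * y)) := ⟨_, rfl⟩
  have hFcard := hdiff F (by rw [hF]; exact filter_subset _ _) (fun y hy => by
    rw [hF, mem_filter] at hy; exact hy.2)
  have hFcard2 : (F.card : ℝ) ≤ sing (2 * x) * Y / (16 * L ^ 2) := by
    refine hFcard.trans ?_
    have h4 : (Y : ℝ) / Real.log Y ^ 3 ≤ Y / (L / 2) ^ 3 := by
      apply div_le_div_of_nonneg_left hYpos.le (by positivity)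
      exact pow_le_pow_left₀ (by positivity) hlogY1 3
    refine h4.trans ?_
    rw [div_le_div_iff₀ (by positivity) (by positivity)]
    have h5 : (16 : ℝ) * L ^ 2 ≤ (L / 2) ^ 3 := by
      have : (L / 2) ^ 3 = L ^ 2 * (L / 8) := by ring
      rw [this]; nlinarith [sq_nonneg L]
    have h6 : (0 : ℝ) ≤ (L / 2) ^ 3 := by positivity
    calc (Y : ℝ) * (16 * L ^ 2) ≤ Y * (L / 2) ^ 3 := mul_le_mul_of_nonneg_left h5 hYpos.le
      _ = 1 * Y * (L / 2) ^ 3 := by ring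
      _ ≤ sing (2 * x) * Y * (L / 2) ^ 3 := by gcongr
  obtain ⟨XX, hXX⟩ : ∃ XX, XX = X0 \ F := ⟨_, rfl⟩
  have hXXcard : D x * Y / (16 * L ^ 2) ≤ XX.card := by
    have h4 : X0.card ≤ XX.card + F.card := by
      rw [hXX]
      have := card_le_card_sdiff_add_card (s := X0) (t := F)
      omega
    have h5 : (X0.card : ℝ) ≤ XX.card + F.card := by exact_mod_cast h4
    have h6 : sing (2 * x) * Y / (8 * L ^ 2) - sing (2 * x) * Y / (16 * L ^ 2) = sing (2 * x) * Y / (16 * L ^ 2) := by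
      field_simp; ring
    have h7 : D x * Y / (16 * L ^ 2) ≤ sing (2 * x) * Y / (16 * L ^ 2) := by gcongr
    linarith
  -- the second step
  obtain ⟨Z, hZ⟩ : ∃ Z : ℕ → Finset ℕ, Z = fun y => (Icc 1 X).filter (fun z => w + y < z ∧ (z + y).Prime ∧ (z - y).Prime) :=
    ⟨_, rfl⟩
  have hZcard : ∀ y ∈ XX, (n : ℝ) / (8 * L ^ 2) ≤ (Z y).card := by
    intro y hy
    rw [hXX, mem_sdiff, hX0, mem_filter, mem_Icc] at hy
    have hg : GoodD 0 0 3 X (2 * y) := by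
      by_contra hcon
      exact hy.2 (by rw [hF, mem_filter, mem_Icc]; exact ⟨hy.1.1, hcon⟩)
    have h4 := diff_count X y w (by
      have : (2 : ℝ) ≤ X := by linarith
      exact_mod_cast this) hy.1.1.1 hg
    rw [hZ]
    simp only
    refine le_trans ?_ h4
    rw [← hl]
    exact zbound hn0 hLbig hX1 hX2 hlogX1 hlogX2 hwR hRR hR1 (hRpow 3 (by omega))
  have hmain := hexp w hww n x Y hxn hwY XX (by
      rw [hXX, hX0]; exact sdiff_subset.trans (filter_subset _ _)) (fun y hy => by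
      rw [hXX, mem_sdiff, hX0, mem_filter] at hy; exact hy.1.2) Z (fun y hy => by
      rw [hZ]
      refine ⟨(filter_subset _ _).trans (Icc_subset_Icc le_rfl hXn), fun z hz => ?_⟩
      rw [mem_filter] at hz
      exact hz.2) ((n : ℝ) / (8 * L ^ 2)) (by positivity) hZcard
  have hsubTwo : XX.biUnion Z ⊆ Two n x := by
    intro z hz
    rw [mem_biUnion] at hz
    obtain ⟨y, hy, hz⟩ := hz
    rw [hXX, mem_sdiff, hX0, mem_filter, mem_Icc] at hy
    rw [hZ, mem_filter, mem_Icc] at hz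
    unfold Two
    rw [mem_filter, mem_Icc]
    exact ⟨⟨hz.1.1, hz.1.2.trans hXn⟩, y, hy.1.1.1, by omega, by omega, hy.1.2.1, hy.1.2.2, hz.2.2.1, hz.2.2.2⟩
  have hle : ((XX.biUnion Z).card : ℝ) ≤ (Two n x).card := by exact_mod_cast card_le_card hsubTwo
  -- conclusion
  have hfin := conclude hnpos hL1 hD1 hC hKr hlogw (hpow 8 (by omega)) hYpos hwK hR0 hLB (hRpow 8 (by omega))
    hYlow hbigq hRR hXXcard hmain (Nat.cast_nonneg _)
  rw [← hΘ] at hfin
  rw [one_div, ← div_eq_inv_mul, div_le_iff₀ (by positivity)]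
  have h16 : (16384 : ℝ) * Θ * (XX.biUnion Z).card ≤ 16384 * Θ * (Two n x).card :=
    mul_le_mul_of_nonneg_left hle (by positivity)
  linarith

end Pool.Agent.Q54.GG
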