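import Pool.Agent.Q54.GG.Four

set_option autoImplicit false

/-! # Upper bound for the number of `y ≤ Y` for which `x ± y` and `z ± y` have no small prime factors -/

namespace Pool.Agent.Q54.GG

open Finset
open Pool.Agent.H373R2.T7 (pz mem_pz nuB PerB sys_fund)

lemma ind_sum (w h : ℕ) (hh : 1 ≤ h) :
    ∑ p ∈ (pz w).filter (fun p => 2 < p), ind p h / p ≤
      ∑ p ∈ h.primeFactors.filter (fun p => 2 < p), 1 / (p : ℝ) := by
  classical
  have e : ∑ p ∈ (pz w).filter (fun p => 2 < p), ind p h / p =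
      ∑ p ∈ ((pz w).filter (fun p => 2 < p)).filter (fun p => p ∣ h), 1 / (p : ℝ) := by
    rw [sum_filter (fun p => p ∣ h)]
    apply sum_congr rfl
    intro p _
    unfold ind
    split_ifs <;> simp
  rw [e]
  apply sum_le_sum_of_subset_of_nonneg
  · intro p hp
    rw [mem_filter, mem_filter, mem_pz] at hp
    rw [mem_filter, Nat.mem_primeFactors]
    exact ⟨⟨hp.1.1.2, hp.2, by omega⟩, hp.1.2⟩
  · intro p _ _
    positivity

/-- the factor of the pair `x`, `z` -/
noncomputable def FF (x z : ℕ) : ℝ := D x * D z * D (Nat.dist x z) ^ 2 * D (x + z) ^ 2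

lemma one_le_FF (x z : ℕ) : 1 ≤ FF x z := by
  unfold FF
  have h1 := one_le_D x
  have h2 := one_le_D z
  have h3 := one_le_pow₀ (one_le_D (Nat.dist x z)) (n := 2)
  have h4 := one_le_pow₀ (one_le_D (x + z)) (n := 2)
  exact one_le_mul_of_one_le_of_one_le (one_le_mul_of_one_le_of_one_le
    (one_le_mul_of_one_le_of_one_le h1 h2) h3) h4

theorem prod_le : ∃ C : ℝ, 0 < C ∧ ∀ w : ℕ, 3 ≤ w → ∀ x z : ℕ, 1 ≤ x → 1 ≤ z → x ≠ z →
    ∏ p ∈ pz w, (1 - (nuB (Q x z) p : ℝ) / p) ≤ C / Real.log w ^ 4 * FF x z := by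
  classical
  obtain ⟨C0, hC0⟩ := Pool.Agent.Helper256.KM.mertens_inv
  refine ⟨Real.exp (4 * C0 + 2), Real.exp_pos _, fun w hw x z hx hz hxz => ?_⟩
  have hw3 : (3 : ℝ) ≤ w := by exact_mod_cast hw
  have hlw : 0 < Real.log w := Real.log_pos (by linarith)
  obtain ⟨g, hg⟩ : ∃ g : ℕ → ℝ, g = fun p : ℕ => if 2 < p then (-4 / (p : ℝ) + ind p x / p + ind p z / p +
      2 * (ind p (Nat.dist x z) / p) + 2 * (ind p (x + z) / p)) else 0 := ⟨_, rfl⟩
  have h1 : ∏ p ∈ pz w, (1 - (nuB (Q x z) p : ℝ) / p) ≤ ∏ p ∈ pz w, Real.exp (g p) := by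
    apply prod_le_prod
    · intro p hp
      have hp' := (mem_pz.1 hp).2
      have hp0 : (0 : ℝ) < p := by exact_mod_cast hp'.pos
      have h2 : nuB (Q x z) p ≤ p := by
        unfold nuB
        exact (card_filter_le _ _).trans (by rw [card_range])
      have h3 : (nuB (Q x z) p : ℝ) / p ≤ 1 := by
        rw [div_le_one hp0]; exact_mod_cast h2
      linarith
    · intro p hp
      have hp' := (mem_pz.1 hp).2
      have hp0 : (0 : ℝ) < p := by exact_mod_cast hp'.pos
      rw [hg]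
      simp only
      split_ifs with h2
      · have h3 := nu_ge x z p hp' h2 (le_total z x)
        have h4 : -((nuB (Q x z) p : ℝ) / p) ≤ -4 / (p : ℝ) + ind p x / p + ind p z / p +
            2 * (ind p (Nat.dist x z) / p) + 2 * (ind p (x + z) / p) := by
          have h5 : (4 - ind p x - ind p z - 2 * ind p (Nat.dist x z) - 2 * ind p (x + z)) / p ≤
            (nuB (Q x z) p : ℝ) / p := div_le_div_of_nonneg_right h3 hp0.le
          have h6 : (4 - ind p x - ind p z - 2 * ind p (Nat.dist x z) - 2 * ind p (x + z)) / p =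
            -(-4 / (p : ℝ) + ind p x / p + ind p z / p +
            2 * (ind p (Nat.dist x z) / p) + 2 * (ind p (x + z) / p)) := by ring
          rw [h6] at h5
          linarith
        have h7 := Real.add_one_le_exp (-((nuB (Q x z) p : ℝ) / p))
        have h8 := Real.exp_le_exp.2 h4
        linarith
      · rw [Real.exp_zero]
        have : 0 ≤ (nuB (Q x z) p : ℝ) / p := by positivity
        linarith
  refine h1.trans ?_
  rw [← Real.exp_sum]
  have h2 : ∑ p ∈ pz w, g p ≤ -4 * Real.log (Real.log w) + (4 * C0 + 2) +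
      (∑ p ∈ x.primeFactors.filter (fun p => 2 < p), 1 / (p : ℝ)) +
      (∑ p ∈ z.primeFactors.filter (fun p => 2 < p), 1 / (p : ℝ)) +
      2 * (∑ p ∈ (Nat.dist x z).primeFactors.filter (fun p => 2 < p), 1 / (p : ℝ)) +
      2 * (∑ p ∈ (x + z).primeFactors.filter (fun p => 2 < p), 1 / (p : ℝ)) := by
    have e : ∑ p ∈ pz w, g p = -4 * ∑ p ∈ (pz w).filter (fun p => 2 < p), 1 / (p : ℝ) +
        ∑ p ∈ (pz w).filter (fun p => 2 < p), ind p x / p +
        ∑ p ∈ (pz w).filter (fun p => 2 < p), ind p z / p +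
        2 * ∑ p ∈ (pz w).filter (fun p => 2 < p), ind p (Nat.dist x z) / p +
        2 * ∑ p ∈ (pz w).filter (fun p => 2 < p), ind p (x + z) / p := by
      rw [hg]
      rw [← sum_filter]
      rw [mul_sum, mul_sum, mul_sum, ← sum_add_distrib, ← sum_add_distrib, ← sum_add_distrib,
        ← sum_add_distrib]
      apply sum_congr rfl
      intro p _
      ring
    rw [e]
    have i1 := ind_sum w x hx
    have i2 := ind_sum w z hz
    have hdist : 1 ≤ Nat.dist x z := Nat.dist_pos_of_ne hxz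
    have i3 := ind_sum w (Nat.dist x z) hdist
    have i4 := ind_sum w (x + z) (by omega)
    have i5 : Real.log (Real.log w) - C0 - 1 / 2 ≤ ∑ p ∈ (pz w).filter (fun p => 2 < p), 1 / (p : ℝ) := by
      have h3 := (abs_le.1 (hC0 w hw)).1
      have h4 : ∑ p ∈ pz w, 1 / (p : ℝ) = ∑ p ∈ (pz w).filter (fun p => 2 < p), 1 / (p : ℝ) +
          ∑ p ∈ (pz w).filter (fun p => ¬ 2 < p), 1 / (p : ℝ) := (sum_filter_add_sum_filter_not _ _ _).symm
      have h5 : ∑ p ∈ (pz w).filter (fun p => ¬ 2 < p), 1 / (p : ℝ) ≤ 1 / 2 := by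
        have hsub : (pz w).filter (fun p => ¬ 2 < p) ⊆ {2} := by
          intro p hp
          rw [mem_filter, mem_pz] at hp
          have := hp.1.2.two_le
          rw [mem_singleton]; omega
        refine (sum_le_sum_of_subset_of_nonneg hsub fun _ _ _ => by positivity).trans ?_
        rw [sum_singleton]; norm_num
      have h6 : ∑ p ∈ pz w, 1 / (p : ℝ) = ∑ p ∈ (Icc 1 w).filter Nat.Prime, (1 : ℝ) / p := rfl
      linarith
    linarith
  refine (Real.exp_le_exp.2 h2).trans ?_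
  rw [Real.exp_add, Real.exp_add, Real.exp_add, Real.exp_add, Real.exp_add]
  have e1 : Real.exp (-4 * Real.log (Real.log w)) = 1 / Real.log w ^ 4 := by
    rw [show -4 * Real.log (Real.log w) = -((4 : ℕ) * Real.log (Real.log w)) by push_cast; ring, Real.exp_neg,
      Real.exp_nat_mul, Real.exp_log hlw, one_div]
  have e2 : ∀ t : ℝ, Real.exp (2 * t) = Real.exp t ^ 2 := by
    intro t
    rw [show 2 * t = ((2 : ℕ) : ℝ) * t by push_cast; ring, Real.exp_nat_mul]
  rw [e1, e2, e2]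
  unfold FF D
  apply le_of_eq
  ring

open Classical in
theorem four_le : ∃ (K : ℕ) (C : ℝ) (w₀ : ℕ), 1 ≤ K ∧ 0 < C ∧ 3 ≤ w₀ ∧ ∀ w : ℕ, w₀ ≤ w → ∀ x z : ℕ, 1 ≤ x → 1 ≤ z →
    x ≠ z → ∀ Y : ℕ,
    (((Icc 1 Y).filter (fun y : ℕ => ∀ p ∈ pz w, ¬ Q x z p y)).card : ℝ) ≤
      C * Y / Real.log w ^ 4 * FF x z + √((w ^ K : ℕ) : ℝ) := by
  obtain ⟨K, x0, hK, hS⟩ := sys_fund 4 (by norm_num) 1 one_pos
  obtain ⟨C, hC, hprod⟩ := prod_le
  refine ⟨K, 2 * C, x0 + 3, hK, by positivity, by omega, fun w hw x z hx hz hxz Y => ?_⟩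
  have h1 := (abs_le.1 (hS (w ^ K) w (by omega) le_rfl (Q x z) (perB x z) Y)).2
  have h2 := hprod w (by omega) x z hx hz hxz
  have hY0 : (0 : ℝ) ≤ Y := Nat.cast_nonneg _
  have h3 : (Y : ℝ) * ∏ p ∈ pz w, (1 - (nuB (Q x z) p : ℝ) / p) ≤ Y * (C / Real.log w ^ 4 * FF x z) :=
    mul_le_mul_of_nonneg_left h2 hY0
  have h4 : 2 * C * Y / Real.log w ^ 4 * FF x z = 2 * (Y * (C / Real.log w ^ 4 * FF x z)) := by ring
  rw [h4]
  linarith

/-! ### Moments -/

lemma D_le (h : ℕ) : D h ≤ Real.exp 24 * Pool.Agent.TH685.TI.gw 24 h ^ 2 := by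
  classical
  unfold D Pool.Agent.TH685.TI.gw
  have e : ∑ p ∈ h.primeFactors.filter (fun p => 2 < p), 1 / (p : ℝ) ≤
      24 + ∑ p ∈ h.primeFactors.filter (fun p => 24 < p), 1 / (p : ℝ) := by
    have h1 : ∑ p ∈ h.primeFactors.filter (fun p => 2 < p), 1 / (p : ℝ) ≤ ∑ p ∈ h.primeFactors, 1 / (p : ℝ) :=
      sum_le_sum_of_subset_of_nonneg (filter_subset _ _) fun _ _ _ => by positivity
    have h2 : ∑ p ∈ h.primeFactors, 1 / (p : ℝ) = ∑ p ∈ h.primeFactors.filter (fun p => 24 < p), 1 / (p : ℝ) +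
          ∑ p ∈ h.primeFactors.filter (fun p => ¬ 24 < p), 1 / (p : ℝ) := (sum_filter_add_sum_filter_not _ _ _).symm
    have h3 : ∑ p ∈ h.primeFactors.filter (fun p => ¬ 24 < p), 1 / (p : ℝ) ≤ 24 := by
      have hsub : h.primeFactors.filter (fun p => ¬ 24 < p) ⊆ Icc (1 : ℕ) 24 := by
        intro p hp
        rw [mem_filter, Nat.mem_primeFactors] at hp
        rw [mem_Icc]
        have := hp.1.1.pos
        omega
      refine (sum_le_sum_of_subset_of_nonneg hsub fun _ _ _ => by positivity).trans ?_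
      have h4 : ∑ p ∈ Icc (1 : ℕ) 24, 1 / (p : ℝ) ≤ ∑ _p ∈ Icc (1 : ℕ) 24, (1 : ℝ) := by
        apply sum_le_sum
        intro p hp
        rw [mem_Icc] at hp
        have : (1 : ℝ) ≤ p := by exact_mod_cast hp.1
        rw [div_le_one (by linarith)]
        exact this
      refine h4.trans ?_
      simp
    linarith
  refine (Real.exp_le_exp.2 e).trans ?_
  rw [Real.exp_add, ← prod_pow, Real.exp_sum]
  apply mul_le_mul_of_nonneg_left _ (Real.exp_pos _).le
  apply prod_le_prod
  · intro p _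
    exact (Real.exp_pos _).le
  · intro p hp
    rw [mem_filter] at hp
    have hp1 : (24 : ℝ) < p := by exact_mod_cast hp.2
    have h1 : 0 ≤ 1 / (p : ℝ) := by positivity
    have h2 : 1 / (p : ℝ) ≤ 1 := by rw [div_le_one (by linarith)]; linarith
    have h3 : Real.exp (1 / (p : ℝ)) ≤ 1 + 2 * (1 / (p : ℝ)) := by
      have h4 := Real.abs_exp_sub_one_sub_id_le (x := 1 / (p : ℝ)) (by rw [abs_of_nonneg h1]; exact h2)
      have h5 := (abs_le.1 h4).2
      nlinarith
    nlinarith

lemma moment (H : ℕ) : ∑ h ∈ Icc 1 H, D h ^ 12 ≤ Real.exp 290 * H := by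
  have h1 := Pool.Agent.TH685.TI.moment_gw_le 24 24 H (by norm_num) le_rfl
  have h2 : ∑ h ∈ Icc 1 H, D h ^ 12 ≤ ∑ h ∈ Icc 1 H, Real.exp 288 * Pool.Agent.TH685.TI.gw 24 h ^ 24 := by
    apply sum_le_sum
    intro h _
    have h3 := D_le h
    have h4 : D h ^ 12 ≤ (Real.exp 24 * Pool.Agent.TH685.TI.gw 24 h ^ 2) ^ 12 :=
      pow_le_pow_left₀ (by linarith [one_le_D h]) h3 12
    refine h4.trans (le_of_eq ?_)
    rw [mul_pow, ← Real.exp_nat_mul, ← pow_mul]
    norm_num
  refine h2.trans ?_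
  rw [← mul_sum]
  calc Real.exp 288 * ∑ h ∈ Icc 1 H, Pool.Agent.TH685.TI.gw 24 h ^ 24 ≤ Real.exp 288 * (H * Real.exp 2) :=
        mul_le_mul_of_nonneg_left h1 (Real.exp_pos _).le
    _ = Real.exp 290 * H := by
        rw [show (290 : ℝ) = 288 + 2 by norm_num, Real.exp_add]; ring

/-- the mean value of the square of the factor -/
theorem FF_moment (x n : ℕ) (hx : 1 ≤ x) (hxn : x ≤ n) :
    ∑ z ∈ (Icc 1 n).filter (fun z => z ≠ x), FF x z ^ 2 ≤ D x ^ 2 * (2 * Real.exp 290 * n) := by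
  classical
  have hpt : ∀ z : ℕ, FF x z ^ 2 ≤ D x ^ 2 * ((D z ^ 12 + D (Nat.dist x z) ^ 12 + D (x + z) ^ 12) / 3) := by
    intro z
    have h1 := one_le_D x
    have h2 := one_le_D z
    have h3 := one_le_D (Nat.dist x z)
    have h4 := one_le_D (x + z)
    have e : FF x z ^ 2 = D x ^ 2 * (D z ^ 2 * D (Nat.dist x z) ^ 4 * D (x + z) ^ 4) := by unfold FF; ring
    rw [e]
    apply mul_le_mul_of_nonneg_left _ (by positivity)
    have h5 : D z ^ 2 * D (Nat.dist x z) ^ 4 * D (x + z) ^ 4 ≤ D z ^ 4 * D (Nat.dist x z) ^ 4 * D (x + z) ^ 4 := by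
      apply mul_le_mul_of_nonneg_right _ (by positivity)
      apply mul_le_mul_of_nonneg_right _ (by positivity)
      exact pow_le_pow_right₀ h2 (by norm_num)
    refine h5.trans ?_
    have h6 := Pool.Agent.TH685.TI.amgm (D z ^ 4) (D (Nat.dist x z) ^ 4) (D (x + z) ^ 4) (by positivity)
      (by positivity) (by positivity)
    rw [← pow_mul, ← pow_mul, ← pow_mul] at h6
    exact h6
  have s1 : ∑ z ∈ (Icc 1 n).filter (fun z => z ≠ x), D z ^ 12 ≤ Real.exp 290 * n := by
    refine le_trans (sum_le_sum_of_subset_of_nonneg (filter_subset _ _) fun z _ _ => ?_) (moment n)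
    have := one_le_D z
    positivity
  have s3 : ∑ z ∈ (Icc 1 n).filter (fun z => z ≠ x), D (x + z) ^ 12 ≤ 2 * (Real.exp 290 * n) := by
    have h1 : ∑ z ∈ (Icc 1 n).filter (fun z => z ≠ x), D (x + z) ^ 12 ≤ ∑ h ∈ Icc 1 (2 * n), D h ^ 12 := by
      rw [← sum_image (g := fun z => x + z) (f := fun h => D h ^ 12) (by
        intro a _ b _ hab
        simp only at hab
        omega)]
      apply sum_le_sum_of_subset_of_nonneg
      · intro h hh
        rw [mem_image] at hh
        obtain ⟨z, hz, rfl⟩ := hh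
        rw [mem_filter, mem_Icc] at hz
        rw [mem_Icc]; omega
      · intro z _ _
        have := one_le_D z
        positivity
    refine h1.trans ((moment (2 * n)).trans (le_of_eq ?_))
    push_cast; ring
  have s2 : ∑ z ∈ (Icc 1 n).filter (fun z => z ≠ x), D (Nat.dist x z) ^ 12 ≤ 2 * (Real.exp 290 * n) := by
    have h1 : ∑ z ∈ (Icc 1 n).filter (fun z => z ≠ x), D (Nat.dist x z) ^ 12 ≤
        ∑ z ∈ (Icc 1 n).filter (fun z => z < x), D (Nat.dist x z) ^ 12 +
        ∑ z ∈ (Icc 1 n).filter (fun z => x < z), D (Nat.dist x z) ^ 12 := by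
      rw [← sum_union]
      · apply le_of_eq
        apply sum_congr _ fun _ _ => rfl
        ext z
        rw [mem_union, mem_filter, mem_filter, mem_filter]
        constructor
        · rintro ⟨h1, h2⟩
          rcases lt_or_gt_of_ne h2 with h | h
          · exact Or.inl ⟨h1, h⟩
          · exact Or.inr ⟨h1, h⟩
        · rintro (⟨h1, h2⟩ | ⟨h1, h2⟩)
          · exact ⟨h1, by omega⟩
          · exact ⟨h1, by omega⟩
      · rw [disjoint_left]
        intro z hz hz'
        rw [mem_filter] at hz hz'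
        omega
    have h2 : ∑ z ∈ (Icc 1 n).filter (fun z => z < x), D (Nat.dist x z) ^ 12 ≤ ∑ h ∈ Icc 1 n, D h ^ 12 := by
      rw [← sum_image (g := fun z => Nat.dist x z) (f := fun h => D h ^ 12) (by
        intro a ha b hb hab
        rw [mem_coe, mem_filter, mem_Icc] at ha hb
        simp only [Nat.dist] at hab
        omega)]
      apply sum_le_sum_of_subset_of_nonneg
      · intro h hh
        rw [mem_image] at hh
        obtain ⟨z, hz, rfl⟩ := hh
        rw [mem_filter, mem_Icc] at hz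
        rw [mem_Icc]
        simp only [Nat.dist]
        omega
      · intro z _ _
        have := one_le_D z
        positivity
    have h3 : ∑ z ∈ (Icc 1 n).filter (fun z => x < z), D (Nat.dist x z) ^ 12 ≤ ∑ h ∈ Icc 1 n, D h ^ 12 := by
      rw [← sum_image (g := fun z => Nat.dist x z) (f := fun h => D h ^ 12) (by
        intro a ha b hb hab
        rw [mem_coe, mem_filter, mem_Icc] at ha hb
        simp only [Nat.dist] at hab
        omega)]
      apply sum_le_sum_of_subset_of_nonneg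
      · intro h hh
        rw [mem_image] at hh
        obtain ⟨z, hz, rfl⟩ := hh
        rw [mem_filter, mem_Icc] at hz
        rw [mem_Icc]
        simp only [Nat.dist]
        omega
      · intro z _ _
        have := one_le_D z
        positivity
    have h4 := moment n
    linarith
  calc ∑ z ∈ (Icc 1 n).filter (fun z => z ≠ x), FF x z ^ 2
      ≤ ∑ z ∈ (Icc 1 n).filter (fun z => z ≠ x), D x ^ 2 * ((D z ^ 12 + D (Nat.dist x z) ^ 12 + D (x + z) ^ 12) / 3) :=
        sum_le_sum fun z _ => hpt z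
    _ = D x ^ 2 * ((∑ z ∈ (Icc 1 n).filter (fun z => z ≠ x), D z ^ 12 +
        ∑ z ∈ (Icc 1 n).filter (fun z => z ≠ x), D (Nat.dist x z) ^ 12 +
        ∑ z ∈ (Icc 1 n).filter (fun z => z ≠ x), D (x + z) ^ 12) / 3) := by
        rw [← mul_sum, ← sum_div, sum_add_distrib, sum_add_distrib]
    _ ≤ D x ^ 2 * (2 * Real.exp 290 * n) := by
        apply mul_le_mul_of_nonneg_left _ (by positivity)
        have : (0 : ℝ) ≤ Real.exp 290 * n := by positivity
        linarith

end Pool.Agent.Q54.GG
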